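import Pool.Agent.helper7.ZB.SpecT

/-!
# Project ZB (MP_baa4d7_al), row ZTN: the chain sum
-/

set_option autoImplicit false

namespace Pool.Agent.ZB

open Pool.Agent.helper58.DC Pool.Agent.DI Pool.Agent.GR Pool.Agent.OB Pool.Agent.DR Pool.Agent.FI Pool.Agent.FI3 Pool.Agent.FI4 Pool.Agent.FI4I Pool.Agent.LE Pool.Agent.L5 Pool.Agent.NAB

theorem ZTN_single {G : Type} [Group G] {p : ℕ} {R : Subgroup G} (hRp : IsPGroup p R) :
    NCh p ⊤ R {R} where
  ch :=
    { chain := by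
        rw [Finset.coe_singleton]
        exact Set.subsingleton_singleton.isChain
      mem := Finset.mem_singleton_self R
      bot := fun Q hQ => (Finset.mem_singleton.1 hQ).symm.le
      le := fun _ _ => le_top
      pg := fun Q hQ => by
        rw [Finset.mem_singleton.1 hQ]
        exact hRp }
  nm := fun Q hQ S hS _ => by
    rw [Finset.mem_singleton.1 hQ, Finset.mem_singleton.1 hS]
    exact Subgroup.le_normalizer

theorem ZTN_nrm {G : Type} [Group G] (R : Subgroup G) : nrm ({R} : Finset (Subgroup G)) = nz R := by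
  unfold nrm
  simp only [Finset.mem_singleton, iInf_iInf_eq_left]

theorem ZTN_ne {G : Type} [Group G] {p : ℕ} {R : Subgroup G} (hR : IsOp p (⊤ : Subgroup G) R)
    {C : Finset (Subgroup G)} (hC : PCh p ⊤ R C) (hne : C ≠ {R}) : nrm C ≠ ⊤ := by
  intro h
  apply hne
  refine Finset.eq_singleton_iff_unique_mem.2 ⟨hC.mem, fun Q hQ => ?_⟩
  refine le_antisymm (hR.2 ⟨le_top, hC.pg Q hQ, ?_⟩) (hC.bot Q hQ)
  rw [← h]
  exact iInf₂_le Q hQ

theorem ZTN (hZTM : ZTM_stmt) (hZLC : ZLC_stmt) (hZTL : ZTL_stmt) (hTPR : Pool.Agent.FI.TPR_stmt) : ZTN_stmt := by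
  intro p κ M hM G _ _ χ hχ D x hD hK R hR hER hind
  have hRp : IsPGroup p R := hR.1.2.1
  have hRnz : nz R = ⊤ := top_le_iff.1 hR.1.2.2
  -- the term of the chain with one term
  have hset : {C : Finset (Subgroup G) | NCh p ⊤ R C} =
      insert {R} {C : Finset (Subgroup G) | NCh p ⊤ R C ∧ C ≠ {R}} := by
    ext C
    simp only [Set.mem_ofPred_eq, Set.mem_insert_iff]
    constructor
    · intro h
      by_cases hC : C = {R}
      · exact Or.inl hC
      · exact Or.inr ⟨h, hC⟩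
    · rintro (h | h)
      · rw [h]
        exact ZTN_single hRp
      · exact h.1
  rw [hset, finsum_mem_insert _ (fun h => h.2 rfl) (Set.toFinite _)]
  have h4 : LL p M χ ⊤ = Le p M (⊤ : Subgroup G) χ := by
    unfold LL Le
    rw [(hTPR p M hM G).2.2.2.1 χ ⊤]
    rfl
  have h5 : (-1 : ℂ) ^ (({R} : Finset (Subgroup G)).card + 1) *
      ((Nat.card (nrm ({R} : Finset (Subgroup G))) : ℂ) * LL p M χ (nrm ({R} : Finset (Subgroup G)))) =
      (Nat.card G : ℂ) * Le p M (⊤ : Subgroup G) χ := by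
    rw [ZTN_nrm, hRnz, h4, Subgroup.card_top, Finset.card_singleton]
    norm_num
  have h6 : ∑ᶠ C ∈ {C : Finset (Subgroup G) | NCh p ⊤ R C ∧ C ≠ {R}}, (-1 : ℂ) ^ (C.card + 1) *
      ((Nat.card (nrm C) : ℂ) * LL p M χ (nrm C)) =
      - ((Nat.card G : ℂ) * lQ p κ M (⊤ : Subgroup G) (nz (EQ p κ.s D)) (EQ p κ.s D) χ) := by
    rw [← hZTM p κ M hM G χ hχ D x hD hK R hRp hRnz hER]
    refine finsum_mem_congr rfl fun C hC => ?_
    rw [hZLC p κ M hM G χ hχ D x hD hK (nrm C) (hind _ (ZTN_ne hR hC.1.ch hC.2))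
      (fun φ hφ Q y hQ => hZTL p M hM G R C hC.1 φ hφ Q y hQ)]
  rw [h5, h6]
  ring

end Pool.Agent.ZB
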